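import Mathlib

/-!
# A Ramsey type statement from idempotent ultrafilters
-/

open Filter Finset

namespace Pool.Agent.Helper212.Tame

section comb

variable {M : Type*} [AddCommMonoid M] (U : Ultrafilter M) (R : M → M → M → Prop)

/-- The first type of requirement. -/
def Gd (x : M) : Prop :=
  (∀ᶠ y in U, ∀ᶠ z in U, R x y z) ∧ ∀ᶠ x' in U, ∀ᶠ y in U, ∀ᶠ z in U, R (x + x') y z

/-- The second type of requirement. -/
def Dd (t : M × M × M) : Prop := ∀ᶠ z in U, R t.1 t.2.1 (t.2.2 + z)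

open Classical in
/-- One step of the construction. -/
noncomputable def stp (s : Finset M × Finset (M × M × M)) (y : M) : Finset M × Finset (M × M × M) :=
  (s.1 ∪ s.1.image (fun x => x + y),
    (s.2 ∪ s.2.image (fun t => (t.1, t.2.1, t.2.2 + y))) ∪ s.1.image (fun x => (x, y, 0)))

/-- The requirement on a state. -/
def Gs (s : Finset M × Finset (M × M × M)) : Prop :=
  (∀ x ∈ s.1, Gd U R x) ∧ ∀ t ∈ s.2, Dd U R t

variable {U R}

theorem gs_step (hU : ∀ p : M → Prop, (∀ᶠ m in U, p m) → ∀ᶠ m in U, ∀ᶠ m' in U, p (m + m'))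
    {s : Finset M × Finset (M × M × M)} (hs : Gs U R s) : ∀ᶠ y in U, Gs U R (stp s y) := by
  classical
  have h1 : ∀ᶠ y in U, ∀ x ∈ s.1, Gd U R (x + y) := by
    rw [Filter.eventually_all_finset]
    intro x hx
    have h := (hs.1 x hx).2
    have h' := hU _ h
    filter_upwards [h, h'] with y hy hy'
    refine ⟨hy, ?_⟩
    filter_upwards [hy'] with x' hx'
    simpa only [add_assoc] using hx'
  have h2 : ∀ᶠ y in U, ∀ x ∈ s.1, Dd U R (x, y, 0) := by
    rw [Filter.eventually_all_finset]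
    intro x hx
    filter_upwards [(hs.1 x hx).1] with y hy
    show ∀ᶠ z in U, R x y (0 + z)
    simpa only [zero_add] using hy
  have h3 : ∀ᶠ y in U, ∀ t ∈ s.2, Dd U R (t.1, t.2.1, t.2.2 + y) := by
    rw [Filter.eventually_all_finset]
    intro t ht
    filter_upwards [hU _ (hs.2 t ht)] with y hy
    show ∀ᶠ z in U, R t.1 t.2.1 (t.2.2 + y + z)
    simpa only [add_assoc] using hy
  filter_upwards [h1, h2, h3] with y h1 h2 h3
  refine ⟨fun x hx => ?_, fun t ht => ?_⟩
  · simp only [stp, Finset.mem_union, Finset.mem_image] at hx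
    rcases hx with hx | ⟨x', hx', rfl⟩
    · exact hs.1 x hx
    · exact h1 x' hx'
  · simp only [stp, Finset.mem_union, Finset.mem_image] at ht
    rcases ht with (ht | ⟨t', ht', rfl⟩) | ⟨x, hx, rfl⟩
    · exact hs.2 t ht
    · exact h3 t' ht'
    · exact h2 x hx

theorem comb (hU : ∀ p : M → Prop, (∀ᶠ m in U, p m) → ∀ᶠ m in U, ∀ᶠ m' in U, p (m + m'))
    (hR : ∀ᶠ x in U, ∀ᶠ y in U, ∀ᶠ z in U, R x y z) :
    ∃ (x₀ : M) (y : ℕ → M), ∀ (S : Finset ℕ) (N : ℕ), ∃ z, ∀ n < N,
      R (x₀ + ∑ i ∈ range n, if i ∈ S then y i else 0) (y n)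
        ((∑ i ∈ Ico (n + 1) N, if i ∈ S then y i else 0) + z) := by
  classical
  have h0 : ∀ᶠ x in U, Gd U R x := hR.and (hU _ hR)
  obtain ⟨x₀, hx₀⟩ := h0.exists
  have hs0 : Gs U R ({x₀}, ∅) := ⟨by simpa using hx₀, by simp⟩
  have hnext : ∀ s : {s // Gs U R s}, ∃ y, Gs U R (stp s.1 y) := fun s => (gs_step hU s.2).exists
  choose nxt hnxt using hnext
  let st : ℕ → {s // Gs U R s} := fun n =>
    Nat.rec ⟨({x₀}, ∅), hs0⟩ (fun _ s => ⟨stp s.1 (nxt s), hnxt s⟩) n
  let y : ℕ → M := fun n => nxt (st n)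
  have hst : ∀ n, (st (n + 1)).1 = stp (st n).1 (y n) := fun n => rfl
  have c1 : ∀ (S : Finset ℕ) (N : ℕ),
      x₀ + ∑ i ∈ range N, (if i ∈ S then y i else 0) ∈ (st N).1.1 := by
    intro S N
    induction N with
    | zero => simp [st]
    | succ N ih =>
      rw [hst, sum_range_succ, ← add_assoc]
      simp only [stp, Finset.mem_union, Finset.mem_image]
      by_cases hN : N ∈ S
      · right
        exact ⟨_, ih, by rw [if_pos hN]⟩
      · left
        rw [if_neg hN, add_zero]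
        exact ih
  have c2 : ∀ (S : Finset ℕ) (N : ℕ), ∀ n < N,
      (x₀ + ∑ i ∈ range n, (if i ∈ S then y i else 0), y n,
        ∑ i ∈ Ico (n + 1) N, if i ∈ S then y i else 0) ∈ (st N).1.2 := by
    intro S N
    induction N with
    | zero => intro n hn; omega
    | succ N ih =>
      intro n hn
      rw [hst]
      simp only [stp, Finset.mem_union, Finset.mem_image]
      rcases Nat.lt_succ_iff_lt_or_eq.1 hn with hlt | rfl
      · left
        rw [sum_Ico_succ_top (by omega)]
        by_cases hN : N ∈ S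
        · right
          exact ⟨_, ih n hlt, by rw [if_pos hN]⟩
        · left
          rw [if_neg hN, add_zero]
          exact ih n hlt
      · right
        exact ⟨_, c1 S n, by simp⟩
  refine ⟨x₀, y, fun S N => ?_⟩
  have h3 : ∀ᶠ z in U, ∀ t ∈ (st N).1.2, R t.1 t.2.1 (t.2.2 + z) := by
    rw [Filter.eventually_all_finset]
    intro t ht
    exact (st N).2.2 t ht
  obtain ⟨z, hz⟩ := h3.exists
  exact ⟨z, fun n hn => hz _ (c2 S N n hn)⟩

end comb

end Pool.Agent.Helper212.Tame
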