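import Mathlib

/-!
# An idempotent ultrafilter on the finitely supported functions
-/

open Filter Finset

namespace Pool.Agent.Helper212.Tame

/-- The unit vectors with index at least `k`. -/
noncomputable def units (k : ℕ) : Stream' (ℕ →₀ ℕ) := fun n => Finsupp.single (n + k) 1

theorem units_tail (k : ℕ) : (units k).tail = units (k + 1) := by
  funext n
  show Finsupp.single (n + 1 + k) 1 = Finsupp.single (n + (k + 1)) 1
  congr 1
  omega

theorem fs_prop (a : Stream' (ℕ →₀ ℕ)) (m : ℕ →₀ ℕ) (hm : m ∈ Hindman.FS a) :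
    ∀ k, a = units k → (∀ i, m i ≤ 1) ∧ (∀ i < k, m i = 0) ∧ m ≠ 0 := by
  induction hm with
  | head' a =>
    rintro k rfl
    have : (units k).head = Finsupp.single k 1 := by
      show Finsupp.single (0 + k) 1 = _
      rw [zero_add]
    rw [this]
    refine ⟨fun i => ?_, fun i hi => ?_, ?_⟩
    · rw [Finsupp.single_apply]; split_ifs <;> simp
    · rw [Finsupp.single_apply, if_neg (by omega)]
    · simp
  | tail' a m _ ih =>
    rintro k rfl
    obtain ⟨h1, h2, h3⟩ := ih (k + 1) (units_tail k)
    exact ⟨h1, fun i hi => h2 i (by omega), h3⟩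
  | cons' a m _ ih =>
    rintro k rfl
    obtain ⟨h1, h2, h3⟩ := ih (k + 1) (units_tail k)
    have : (units k).head = Finsupp.single k 1 := by
      show Finsupp.single (0 + k) 1 = _
      rw [zero_add]
    rw [this]
    refine ⟨fun i => ?_, fun i hi => ?_, ?_⟩
    · rw [Finsupp.add_apply, Finsupp.single_apply]
      split_ifs with h
      · rw [h2 i (by omega)]
      · simpa using h1 i
    · rw [Finsupp.add_apply, Finsupp.single_apply, if_neg (by omega), h2 i (by omega)]
    · intro h
      have h4 := DFunLike.congr_fun h k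
      simp [Finsupp.add_apply] at h4

/-- An idempotent ultrafilter that lives on the nonzero vectors with entries at most one. -/
theorem exists_ultra : ∃ U : Ultrafilter (ℕ →₀ ℕ),
    (∀ p : (ℕ →₀ ℕ) → Prop, (∀ᶠ m in U, p m) ↔ ∀ᶠ m in U, ∀ᶠ m' in U, p (m + m')) ∧
      ∀ᶠ m : ℕ →₀ ℕ in U, (∀ i, m i ≤ 1) ∧ m ≠ 0 := by
  obtain ⟨U, hU, hU2⟩ := Hindman.exists_idempotent_ultrafilter_le_FS (units 0)
  refine ⟨U, fun p => ?_, ?_⟩
  · constructor
    · intro h
      rw [← hU] at h
      exact h
    · intro h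
      rw [← hU]
      exact h
  · filter_upwards [hU2] with m hm
    obtain ⟨h1, -, h3⟩ := fs_prop _ m hm 0 rfl
    exact ⟨h1, h3⟩

end Pool.Agent.Helper212.Tame
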