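import Mathlib
import Pool.Agent.Helper212.Tame.Comb
import Pool.Agent.Helper212.Tame.Ultra

/-!
# Tame functions on the additive group of continuous functions on the Cantor space
-/

open Filter Finset Topology

namespace Pool.Agent.Helper212.Tame

/-- The coordinate functions. -/
noncomputable def crd (i : ℕ) : C(ℕ → Bool, ℝ) :=
  ⟨fun p => if p i = true then 1 else 0,
    (continuous_of_discreteTopology (f := fun b : Bool => if b = true then (1 : ℝ) else 0)).comp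
      (continuous_apply i)⟩

/-- The indicator function of the set of the sequences with first `true` at `i`. -/
noncomputable def bump (i : ℕ) : C(ℕ → Bool, ℝ) := crd i * ∏ j ∈ range i, (1 - crd j)

theorem crd_apply (i : ℕ) (p : ℕ → Bool) : crd i p = if p i = true then 1 else 0 := rfl

theorem bump_apply (i : ℕ) (p : ℕ → Bool) :
    bump i p = (if p i = true then 1 else 0) * ∏ j ∈ range i, (1 - if p j = true then (1 : ℝ) else 0) := by
  simp [bump, crd_apply, ContinuousMap.mul_apply, ContinuousMap.prod_apply]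

theorem bump_nonneg (i : ℕ) (p : ℕ → Bool) : 0 ≤ bump i p := by
  rw [bump_apply]
  refine mul_nonneg (by split_ifs <;> norm_num) (Finset.prod_nonneg fun j _ => ?_)
  split_ifs <;> norm_num

theorem sum_bump (N : ℕ) (p : ℕ → Bool) :
    ∑ i ∈ range N, bump i p = 1 - ∏ j ∈ range N, (1 - if p j = true then (1 : ℝ) else 0) := by
  induction N with
  | zero => simp
  | succ N ih =>
    rw [sum_range_succ, ih, prod_range_succ, bump_apply]
    ring

theorem sum_bump_le (N : ℕ) (p : ℕ → Bool) : ∑ i ∈ range N, bump i p ≤ 1 := by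
  rw [sum_bump]
  have : 0 ≤ ∏ j ∈ range N, (1 - if p j = true then (1 : ℝ) else 0) := by
    refine Finset.prod_nonneg fun j _ => ?_
    split_ifs <;> norm_num
  linarith

/-- The test point for `bump i`. -/
def qt (i : ℕ) : ℕ → Bool := fun j => decide (j = i)

theorem bump_qt (k i : ℕ) : bump k (qt i) = if k = i then 1 else 0 := by
  rw [bump_apply]
  by_cases h : k = i
  · subst h
    rw [if_pos (by simp [qt]), if_pos rfl, one_mul]
    refine Finset.prod_eq_one fun j hj => ?_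
    rw [mem_range] at hj
    simp [qt, hj.ne]
  · rw [if_neg (by simp [qt, h]), if_neg h, zero_mul]

/-- The additive map sending a vector of natural numbers to a combination of the bumps. -/
noncomputable def cc (m : ℕ →₀ ℕ) : C(ℕ → Bool, ℝ) := m.sum fun i n => n • bump i

theorem cc_add (m m' : ℕ →₀ ℕ) : cc (m + m') = cc m + cc m' :=
  Finsupp.sum_add_index' (fun _ => zero_smul _ _) fun _ _ _ => add_smul _ _ _

theorem cc_zero : cc 0 = 0 := Finsupp.sum_zero_index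

theorem cc_apply (m : ℕ →₀ ℕ) (p : ℕ → Bool) : cc m p = m.sum fun i n => (n : ℝ) * bump i p := by
  simp [cc, Finsupp.sum, ContinuousMap.sum_apply]

theorem cc_nonneg (m : ℕ →₀ ℕ) (p : ℕ → Bool) : 0 ≤ cc m p := by
  rw [cc_apply]
  exact Finset.sum_nonneg fun i _ => mul_nonneg (Nat.cast_nonneg _) (bump_nonneg i p)

theorem cc_le (m : ℕ →₀ ℕ) (hm : ∀ i, m i ≤ 1) (p : ℕ → Bool) : cc m p ≤ 1 := by
  rw [cc_apply]
  obtain ⟨N, hN⟩ := m.support.exists_nat_subset_range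
  calc (m.sum fun i n => (n : ℝ) * bump i p) ≤ ∑ i ∈ m.support, bump i p := by
        refine Finset.sum_le_sum fun i _ => ?_
        have h1 : ((m i : ℕ) : ℝ) ≤ 1 := by exact_mod_cast hm i
        have h2 := bump_nonneg i p
        nlinarith
    _ ≤ ∑ i ∈ range N, bump i p :=
        Finset.sum_le_sum_of_subset_of_nonneg hN fun i _ _ => bump_nonneg i p
    _ ≤ 1 := sum_bump_le N p

theorem cc_qt (m : ℕ →₀ ℕ) (i : ℕ) : cc m (qt i) = m i := by
  rw [cc_apply]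
  simp only [bump_qt, mul_ite, mul_one, mul_zero]
  rw [Finsupp.sum]
  simp
  intro h
  exact_mod_cast h.symm

theorem norm_le (β : ℝ) (hβ : 0 ≤ β) (m : ℕ →₀ ℕ) (hm : ∀ i, m i ≤ 1) : ‖β • cc m‖ ≤ β := by
  rw [ContinuousMap.norm_le _ hβ]
  intro p
  rw [ContinuousMap.smul_apply, smul_eq_mul, norm_mul, Real.norm_of_nonneg hβ,
    Real.norm_of_nonneg (cc_nonneg m p)]
  have := cc_le m hm p
  nlinarith

theorem le_norm (β : ℝ) (hβ : 0 ≤ β) (j : ℕ) (x y z : ℕ →₀ ℕ) (hy : y ≠ 0) :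
    β * j ≤ ‖β • (cc x + j • cc y + cc z)‖ := by
  obtain ⟨i, hi⟩ := Finsupp.ne_iff.1 hy
  have h1 := ContinuousMap.norm_coe_le_norm (β • (cc x + j • cc y + cc z)) (qt i)
  refine le_trans ?_ h1
  have h2 : (β • (cc x + j • cc y + cc z)) (qt i) = β * (x i + j * y i + z i) := by
    simp [cc_qt]
    ring
  rw [h2]
  refine le_trans ?_ (le_abs_self _)
  have h3 : (1 : ℝ) ≤ y i := by
    have : 1 ≤ y i := Nat.one_le_iff_ne_zero.2 (by simpa using hi)
    exact_mod_cast this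
  have h4 : (0 : ℝ) ≤ x i := Nat.cast_nonneg _
  have h5 : (0 : ℝ) ≤ z i := Nat.cast_nonneg _
  have h6 : (0 : ℝ) ≤ j := Nat.cast_nonneg _
  refine mul_le_mul_of_nonneg_left ?_ hβ
  nlinarith

section main

variable (U : Ultrafilter (ℕ →₀ ℕ))

/-- The nested limit along `U` of the vectors `β (x + j y + z)`. -/
noncomputable def WW (β : ℝ) (j : ℕ) : Ultrafilter C(ℕ → Bool, ℝ) :=
  U.bind fun x => U.bind fun y => U.map fun z => β • (cc x + j • cc y + cc z)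

theorem ev_WW (β : ℝ) (j : ℕ) (p : C(ℕ → Bool, ℝ) → Prop) :
    (∀ᶠ v in WW U β j, p v) ↔
      ∀ᶠ x in U, ∀ᶠ y in U, ∀ᶠ z in U, p (β • (cc x + j • cc y + cc z)) := Iff.rfl

theorem exists_lim (f : C(ℕ → Bool, ℝ) → ℝ) {C : ℝ} (hC : ∀ v, |f v| ≤ C)
    (W : Ultrafilter C(ℕ → Bool, ℝ)) : ∃ L, Tendsto f W (𝓝 L) := by
  have h1 : ((W.map f : Ultrafilter ℝ) : Filter ℝ) ≤ 𝓟 (Set.Icc (-C) C) := by
    rw [le_principal_iff]
    have h2 : ∀ᶠ v in W, f v ∈ Set.Icc (-C) C := Eventually.of_forall fun v => abs_le.1 (hC v)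
    exact h2
  obtain ⟨L, -, hL⟩ := isCompact_Icc.ultrafilter_le_nhds _ h1
  exact ⟨L, hL⟩

variable {U}
variable (hU : ∀ p : (ℕ →₀ ℕ) → Prop, (∀ᶠ m in U, p m) ↔ ∀ᶠ m in U, ∀ᶠ m' in U, p (m + m'))

include hU in
theorem exists_indep (β : ℝ) (j : ℕ) (p₀ p₁ : C(ℕ → Bool, ℝ) → Prop)
    (h₀ : ∀ᶠ v in WW U β j, p₀ v) (h₁ : ∀ᶠ v in WW U β (j + 1), p₁ v) :
    ∃ s : ℕ → C(ℕ → Bool, ℝ), ∀ P M : Finset ℕ, Disjoint P M →
      ∃ x, (∀ n ∈ P, p₀ (s n + x)) ∧ ∀ n ∈ M, p₁ (s n + x) := by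
  rw [ev_WW] at h₀ h₁
  have hR : ∀ᶠ x in U, ∀ᶠ y in U, ∀ᶠ z in U, p₀ (β • (cc x + j • cc y + cc z)) ∧
      p₁ (β • (cc x + (j + 1) • cc y + cc z)) := by
    filter_upwards [h₀, h₁] with x hx hx'
    filter_upwards [hx, hx'] with y hy hy'
    exact hy.and hy'
  obtain ⟨x₀, y, hxy⟩ := comb (fun p => (hU p).1) hR
  refine ⟨fun n => β • (j • cc (y n)), fun P M hPM => ?_⟩
  obtain ⟨N, hN⟩ := (P ∪ M).exists_nat_subset_range
  obtain ⟨z, hz⟩ := hxy M N
  refine ⟨β • cc (x₀ + (∑ i ∈ range N, if i ∈ M then y i else 0) + z), fun n hn => ?_, fun n hn => ?_⟩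
  · have hnN : n < N := mem_range.1 (hN (mem_union_left _ hn))
    have hnM : n ∉ M := fun h => (disjoint_left.1 hPM) hn h
    have h2 := (hz n hnN).1
    have h3 : (∑ i ∈ range N, if i ∈ M then y i else 0) = (∑ i ∈ range n, if i ∈ M then y i else 0)
        + ∑ i ∈ Ico (n + 1) N, if i ∈ M then y i else 0 := by
      rw [← sum_range_add_sum_Ico _ (show n + 1 ≤ N from hnN), sum_range_succ, if_neg hnM, add_zero]
    rw [h3]
    convert h2 using 1
    rw [← smul_add]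
    congr 1
    simp only [cc_add]
    abel
  · have hnN : n < N := mem_range.1 (hN (mem_union_right _ hn))
    have h2 := (hz n hnN).2
    have h3 : (∑ i ∈ range N, if i ∈ M then y i else 0) = (∑ i ∈ range n, if i ∈ M then y i else 0)
        + y n + ∑ i ∈ Ico (n + 1) N, if i ∈ M then y i else 0 := by
      rw [← sum_range_add_sum_Ico _ (show n + 1 ≤ N from hnN), sum_range_succ, if_pos hn]
    rw [h3]
    convert h2 using 1
    rw [← smul_add]
    congr 1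
    simp only [cc_add, add_smul, one_smul]
    abel

/-- A function with no independent sequence of translates. -/
def NoIndep (f : C(ℕ → Bool, ℝ) → ℝ) : Prop :=
  ¬ ∃ s : ℕ → C(ℕ → Bool, ℝ), ∃ a b : ℝ, a < b ∧ ∀ P M : Finset ℕ, Disjoint P M →
    ∃ x, (∀ n ∈ P, f (s n + x) < a) ∧ ∀ n ∈ M, b < f (s n + x)

include hU in
theorem lim_succ (f : C(ℕ → Bool, ℝ) → ℝ) (hf : NoIndep f) (β : ℝ) (j : ℕ) (L L' : ℝ)
    (hL : Tendsto f (WW U β j) (𝓝 L)) (hL' : Tendsto f (WW U β (j + 1)) (𝓝 L')) : L = L' := by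
  by_contra hne
  rcases lt_or_gt_of_ne hne with h | h
  · obtain ⟨a, ha, ha'⟩ := exists_between h
    obtain ⟨b, hb, hb'⟩ := exists_between ha'
    obtain ⟨s, hs⟩ := exists_indep hU β j (fun v => f v < a) (fun v => b < f v)
      (hL.eventually (gt_mem_nhds ha)) (hL'.eventually (lt_mem_nhds hb'))
    exact hf ⟨s, a, b, hb, hs⟩
  · obtain ⟨a, ha, ha'⟩ := exists_between h
    obtain ⟨b, hb, hb'⟩ := exists_between ha'
    obtain ⟨s, hs⟩ := exists_indep hU β j (fun v => b < f v) (fun v => f v < a)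
      (hL.eventually (lt_mem_nhds hb')) (hL'.eventually (gt_mem_nhds ha))
    refine hf ⟨s, a, b, hb, fun P M hPM => ?_⟩
    obtain ⟨x, hx1, hx2⟩ := hs M P hPM.symm
    exact ⟨x, hx2, hx1⟩

include hU in
theorem lim_zero (hU1 : ∀ᶠ m : ℕ →₀ ℕ in U, (∀ i, m i ≤ 1) ∧ m ≠ 0)
    (f : C(ℕ → Bool, ℝ) → ℝ) (β ε : ℝ) (hβ : 0 ≤ β) (hf : ∀ v, ‖v‖ ≤ β → |f v - f 0| ≤ ε) (L : ℝ)
    (hL : Tendsto f (WW U β 0) (𝓝 L)) : |L - f 0| ≤ ε := by
  have h1 : ∀ᶠ v in WW U β 0, |f v - f 0| ≤ ε := by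
    rw [ev_WW]
    have h2 := (hU _).1 (hU1.mono fun m hm => hm.1)
    filter_upwards [h2] with x hx
    refine Eventually.of_forall fun y => ?_
    filter_upwards [hx] with z hz
    refine hf _ ?_
    rw [zero_smul, add_zero, ← cc_add]
    exact norm_le β hβ _ hz
  have h2 : Tendsto (fun v => |f v - f 0|) (WW U β 0) (𝓝 |L - f 0|) :=
    (hL.sub_const _).abs
  exact le_of_tendsto h2 h1

include hU in
theorem lim_all (hU1 : ∀ᶠ m : ℕ →₀ ℕ in U, (∀ i, m i ≤ 1) ∧ m ≠ 0)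
    (f : C(ℕ → Bool, ℝ) → ℝ) {C : ℝ} (hC : ∀ v, |f v| ≤ C) (hf' : NoIndep f) (β ε : ℝ)
    (hβ : 0 ≤ β) (hf : ∀ v, ‖v‖ ≤ β → |f v - f 0| ≤ ε) (j : ℕ) :
    ∃ L, Tendsto f (WW U β j) (𝓝 L) ∧ |L - f 0| ≤ ε := by
  induction j with
  | zero =>
    obtain ⟨L, hL⟩ := exists_lim f hC (WW U β 0)
    exact ⟨L, hL, lim_zero hU hU1 f β ε hβ hf L hL⟩
  | succ j ih =>
    obtain ⟨L, hL, hL2⟩ := ih
    obtain ⟨L', hL'⟩ := exists_lim f hC (WW U β (j + 1))
    refine ⟨L', hL', ?_⟩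
    rw [← lim_succ hU f hf' β j L L' hL hL']
    exact hL2

variable (U) in
/-- The filter that witnesses the failure. -/
noncomputable def FF : Filter C(ℕ → Bool, ℝ) :=
  Filter.bind atTop fun n : ℕ => (WW U (1 / (n + 1 : ℝ)) (n + 1) : Filter C(ℕ → Bool, ℝ))

theorem FF_norm (hU1 : ∀ᶠ m : ℕ →₀ ℕ in U, (∀ i, m i ≤ 1) ∧ m ≠ 0) :
    ∀ᶠ v in FF U, 1 ≤ ‖v‖ := by
  rw [FF, eventually_bind]
  refine Eventually.of_forall fun n => ?_
  rw [ev_WW]
  refine Eventually.of_forall fun x => ?_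
  filter_upwards [hU1] with y hy
  refine Eventually.of_forall fun z => ?_
  have h1 := le_norm (1 / (n + 1 : ℝ)) (by positivity) (n + 1) x y z hy.2
  refine le_trans (le_of_eq ?_) h1
  have : (n + 1 : ℝ) ≠ 0 := by positivity
  push_cast
  field_simp

theorem FF_neBot : (FF U).NeBot := by
  rw [FF, Filter.neBot_iff, Ne, Filter.ext_iff]
  intro h
  have h1 : (∅ : Set C(ℕ → Bool, ℝ)) ∈ Filter.bind atTop fun n : ℕ =>
      (WW U (1 / (n + 1 : ℝ)) (n + 1) : Filter C(ℕ → Bool, ℝ)) := (h ∅).2 mem_bot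
  rw [mem_bind'] at h1
  obtain ⟨n, hn⟩ := (show ∀ᶠ n : ℕ in atTop, (∅ : Set C(ℕ → Bool, ℝ)) ∈
    (WW U (1 / (n + 1 : ℝ)) (n + 1) : Filter C(ℕ → Bool, ℝ)) from h1).exists
  exact empty_notMem _ hn

include hU in
theorem FF_tendsto (hU1 : ∀ᶠ m : ℕ →₀ ℕ in U, (∀ i, m i ≤ 1) ∧ m ≠ 0)
    (f : C(ℕ → Bool, ℝ) → ℝ) {C : ℝ} (hC : ∀ v, |f v| ≤ C) (hf' : NoIndep f)
    (hf : ContinuousAt f 0) : Tendsto f (FF U) (𝓝 (f 0)) := by
  rw [Metric.tendsto_nhds]
  intro ε hε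
  rw [FF, eventually_bind]
  rw [Metric.continuousAt_iff] at hf
  obtain ⟨δ, hδ, hδ2⟩ := hf (ε / 2) (half_pos hε)
  have h1 : Tendsto (fun n : ℕ => 1 / (n + 1 : ℝ)) atTop (𝓝 0) :=
    tendsto_one_div_add_atTop_nhds_zero_nat
  filter_upwards [h1.eventually (gt_mem_nhds hδ)] with n hn
  obtain ⟨L, hL, hL2⟩ := lim_all hU hU1 f hC hf' (1 / (n + 1 : ℝ)) (ε / 2) (by positivity)
    (fun v hv => by
      have h2 : dist v 0 < δ := by rw [dist_zero_right]; exact hv.trans_lt hn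
      exact (hδ2 h2).le) (n + 1)
  have h3 := (Metric.tendsto_nhds.1 hL) (ε / 2) (half_pos hε)
  filter_upwards [h3] with v hv
  calc dist (f v) (f 0) ≤ dist (f v) L + dist L (f 0) := dist_triangle _ _ _
    _ < ε / 2 + ε / 2 := add_lt_add_of_lt_of_le hv hL2
    _ = ε := by ring

end main

end Pool.Agent.Helper212.Tame
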